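import Pool.Agent.W_7d29a1_Z.Defs

/-!
# STORM Z: the total shift of a pattern with balanced amplitudes (helper2)
-/

set_option autoImplicit false

namespace Pool.Agent.W_7d29a1_Z2

open Finset Pool.Agent.W_7d29a1_Z

/-- The partial sums of the amplitudes. -/
def As (V : ℕ → ℤ) (b : ℕ) : ℤ := ∑ c ∈ range b, V c

theorem As_succ (V : ℕ → ℤ) (b : ℕ) : As V (b + 1) = As V b + V b := sum_range_succ _ _

/-- The shift inside one period. -/
theorem sv_zone {t τ : ℕ} {I : Finset ℕ} (V : ℕ → ℤ) (b r : ℕ) (hr : r ≤ 2 * t) :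
    sv (pat t τ I V) (za t τ b) (za t τ b + r) = ((I ∩ range r).card : ℤ) * V b := by
  unfold sv
  rw [sum_Ico_eq_sum_range, Nat.add_sub_cancel_left]
  have h1 : ∀ j ∈ range r, pat t τ I V (za t τ b + j) = if j ∈ I then V b else 0 := by
    intro j hj
    have hj' : j < 2 * t := lt_of_lt_of_le (mem_range.1 hj) hr
    unfold pat za
    have e1 : τ + 2 * t * b + j - τ = 2 * t * b + j := by omega
    rw [e1, Nat.mul_add_mod, Nat.mod_eq_of_lt hj', Nat.mul_add_div (by omega), Nat.div_eq_of_lt hj', add_zero]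
    have e2 : τ ≤ τ + 2 * t * b + j := by omega
    simp only [e2, true_and]
  rw [sum_congr rfl h1, ← sum_filter, sum_const, nsmul_eq_mul]
  congr 3
  ext j
  simp only [mem_filter, mem_inter, mem_range]
  tauto

theorem sv_split2 (v : ℕ → ℤ) {a b c : ℕ} (h1 : a ≤ b) (h2 : b ≤ c) : sv v a c = sv v a b + sv v b c :=
  (sum_Ico_consecutive _ h1 h2).symm

/-- The shift at the start of a zone. -/
theorem sv_za {t τ : ℕ} {I : Finset ℕ} (hI : I ⊆ range (2 * t)) (V : ℕ → ℤ) (b : ℕ) :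
    sv (pat t τ I V) 0 (za t τ b) = (I.card : ℤ) * As V b := by
  induction b with
  | zero =>
    unfold sv As
    rw [range_zero, sum_empty, mul_zero]
    refine sum_eq_zero fun k hk => ?_
    unfold za at hk
    rw [mul_zero, add_zero, mem_Ico] at hk
    unfold pat
    rw [if_neg]
    rintro ⟨h, _⟩
    omega
  | succ b ih =>
    have e1 : za t τ (b + 1) = za t τ b + 2 * t := by unfold za; ring
    rw [e1, sv_split2 _ (Nat.zero_le _) (Nat.le_add_right _ _), ih, sv_zone V b (2 * t) le_rfl, As_succ,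
      inter_eq_left.2 hI]
    ring

/-- The shift at the distance `r` behind the start of a zone. -/
theorem sv_za_add {t τ : ℕ} {I : Finset ℕ} (hI : I ⊆ range (2 * t)) (V : ℕ → ℤ) (b r : ℕ) (hr : r ≤ 2 * t) :
    sv (pat t τ I V) 0 (za t τ b + r) = (I.card : ℤ) * As V b + ((I ∩ range r).card : ℤ) * V b := by
  rw [sv_split2 _ (Nat.zero_le _) (Nat.le_add_right _ _), sv_za hI, sv_zone V b r hr]

/-- No shift before the first zone. -/
theorem sv_lt {t τ : ℕ} {I : Finset ℕ} (V : ℕ → ℤ) {i : ℕ} (hi : i ≤ τ) : sv (pat t τ I V) 0 i = 0 := by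
  unfold sv
  refine sum_eq_zero fun k hk => ?_
  rw [mem_Ico] at hk
  unfold pat
  rw [if_neg]
  rintro ⟨h, _⟩
  omega

theorem core_sub (t : ℕ) {I : Finset ℕ} (hI : I ⊆ Core t) : I ⊆ range (2 * t) := by
  intro k hk
  have := hI hk
  unfold Core at this
  rw [mem_Ico] at this
  rw [mem_range]
  omega

/-! ### The balanced amplitudes -/

theorem amp_lt (s : ℤ) (b₀ m : ℕ) (σ : Fin m → Fin 4) {b : ℕ} (h : b < b₀) : amp s b₀ m σ b = 0 := by
  unfold amp
  rw [dif_neg]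
  rintro ⟨h1, _⟩
  omega

theorem amp_ge (s : ℤ) (b₀ m : ℕ) (σ : Fin m → Fin 4) {b : ℕ} (h : b₀ + 2 * m ≤ b) : amp s b₀ m σ b = 0 := by
  unfold amp
  rw [dif_neg]
  rintro ⟨_, h1⟩
  omega

theorem abs_val_le (i : Fin 4) : |Pool.Agent.W_7d29a1_Z.val i| ≤ 1 := by
  fin_cases i <;> simp [Pool.Agent.W_7d29a1_Z.val]

theorem abs_amp_le (s : ℤ) (b₀ m : ℕ) (σ : Fin m → Fin 4) (b : ℕ) : |amp s b₀ m σ b| ≤ |s| := by
  unfold amp
  split_ifs with h h2
  · rw [abs_mul]
    calc |s| * _ ≤ |s| * 1 := mul_le_mul_of_nonneg_left (abs_val_le _) (abs_nonneg s)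
      _ = |s| := mul_one _
  · rw [abs_neg, abs_mul]
    calc |s| * _ ≤ |s| * 1 := mul_le_mul_of_nonneg_left (abs_val_le _) (abs_nonneg s)
      _ = |s| := mul_one _
  · simp

theorem amp_pair (s : ℤ) (b₀ m : ℕ) (σ : Fin m → Fin 4) (j : ℕ) :
    amp s b₀ m σ (b₀ + 2 * j) + amp s b₀ m σ (b₀ + 2 * j + 1) = 0 := by
  by_cases hj : j < m
  · have e1 : (b₀ + 2 * j - b₀) / 2 = j := by omega
    have e2 : (b₀ + 2 * j + 1 - b₀) / 2 = j := by omega
    have h1 : b₀ ≤ b₀ + 2 * j ∧ (b₀ + 2 * j - b₀) / 2 < m := ⟨by omega, by omega⟩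
    have h2 : b₀ ≤ b₀ + 2 * j + 1 ∧ (b₀ + 2 * j + 1 - b₀) / 2 < m := ⟨by omega, by omega⟩
    unfold amp
    rw [dif_pos h1, dif_pos h2, if_pos (by omega), if_neg (by omega)]
    have e3 : (⟨(b₀ + 2 * j - b₀) / 2, h1.2⟩ : Fin m) = ⟨(b₀ + 2 * j + 1 - b₀) / 2, h2.2⟩ :=
      Fin.ext (by simp only [e1, e2])
    rw [e3]
    ring
  · rw [amp_ge s b₀ m σ (by omega), amp_ge s b₀ m σ (by omega), add_zero]

theorem As_amp_le (s : ℤ) (b₀ m : ℕ) (σ : Fin m → Fin 4) {b : ℕ} (h : b ≤ b₀) : As (amp s b₀ m σ) b = 0 := by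
  unfold As
  refine sum_eq_zero fun c hc => amp_lt s b₀ m σ ?_
  rw [mem_range] at hc
  omega

theorem As_amp_even (s : ℤ) (b₀ m : ℕ) (σ : Fin m → Fin 4) (j : ℕ) : As (amp s b₀ m σ) (b₀ + 2 * j) = 0 := by
  induction j with
  | zero => exact As_amp_le s b₀ m σ (by omega)
  | succ j ih =>
    have e1 : b₀ + 2 * (j + 1) = b₀ + 2 * j + 1 + 1 := by ring
    rw [e1, As_succ, As_succ, ih, zero_add]
    exact amp_pair s b₀ m σ j

theorem As_amp_odd (s : ℤ) (b₀ m : ℕ) (σ : Fin m → Fin 4) (j : ℕ) :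
    As (amp s b₀ m σ) (b₀ + 2 * j + 1) = -amp s b₀ m σ (b₀ + 2 * j + 1) := by
  rw [As_succ, As_amp_even, zero_add]
  linarith [amp_pair s b₀ m σ j]

theorem As_amp_ge (s : ℤ) (b₀ m : ℕ) (σ : Fin m → Fin 4) {b : ℕ} (h : b₀ + 2 * m ≤ b) :
    As (amp s b₀ m σ) b = 0 := by
  obtain ⟨k, rfl⟩ := Nat.exists_eq_add_of_le h
  induction k with
  | zero => exact As_amp_even s b₀ m σ m
  | succ k ih =>
    rw [← add_assoc, As_succ, ih (by omega), amp_ge s b₀ m σ (by omega), add_zero]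

/-- The place of a time. -/
theorem place {t τ i : ℕ} (ht : 0 < t) (hi : τ ≤ i) :
    ∃ b r, r < 2 * t ∧ i = za t τ b + r := by
  refine ⟨(i - τ) / (2 * t), (i - τ) % (2 * t), Nat.mod_lt _ (by omega), ?_⟩
  unfold za
  have := Nat.div_add_mod (i - τ) (2 * t)
  omega

theorem sum_zero {t τ N : ℕ} {I : Finset ℕ} (hI : I ⊆ Core t) (s : ℤ) (b₀ m : ℕ) (σ : Fin m → Fin 4)
    (hN : za t τ (b₀ + 2 * m) ≤ N) : sv (pat t τ I (amp s b₀ m σ)) 0 N = 0 := by
  rcases Nat.eq_zero_or_pos t with rfl | ht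
  · have hI0 : I = ∅ := by
      rw [← subset_empty]
      intro k hk
      have := hI hk
      simp [Core] at this
    subst hI0
    unfold sv
    refine sum_eq_zero fun k _ => ?_
    unfold pat
    rw [if_neg]
    rintro ⟨_, h⟩
    simp at h
  · have hτ : τ ≤ N := by unfold za at hN; omega
    obtain ⟨b, r, hr, rfl⟩ := place ht hτ
    have hb : b₀ + 2 * m ≤ b := by
      by_contra hlt
      have h1 : b + 1 ≤ b₀ + 2 * m := by omega
      have h2 : 2 * t * (b + 1) ≤ 2 * t * (b₀ + 2 * m) := Nat.mul_le_mul_left _ h1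
      unfold za at hN
      have h3 : 2 * t * (b + 1) = 2 * t * b + 2 * t := by ring
      omega
    rw [sv_za_add (core_sub t hI) _ b r hr.le, As_amp_ge s b₀ m σ hb, amp_ge s b₀ m σ hb]
    ring

theorem inter_full {t r : ℕ} {I : Finset ℕ} (hI : I ⊆ Core t) (hr : t - t / 4 ≤ r) : I ∩ range r = I := by
  rw [inter_eq_left]
  intro k hk
  have := hI hk
  unfold Core at this
  rw [mem_Ico] at this
  rw [mem_range]
  omega

theorem inter_empty2 {t r : ℕ} {I : Finset ℕ} (hI : I ⊆ Core t) (hr : r ≤ t / 4) : I ∩ range r = ∅ := by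
  rw [← disjoint_iff_inter_eq_empty, disjoint_left]
  intro k hk
  have := hI hk
  unfold Core at this
  rw [mem_Ico] at this
  rw [mem_range]
  omega

theorem amp_sv {t τ : ℕ} {I : Finset ℕ} (ht : 4 ≤ t) (hI : I ⊆ Core t) (s : ℤ) (b₀ m : ℕ) (σ : Fin m → Fin 4) (i : ℕ) :
    |sv (pat t τ I (amp s b₀ m σ)) 0 i| ≤ |s| * I.card ∧
      (∀ j, zb t τ (b₀ + 2 * j + 1) - t / 4 ≤ i → i ≤ za t τ (b₀ + 2 * j + 2) + t / 4 → sv (pat t τ I (amp s b₀ m σ)) 0 i = 0) ∧
      (i ≤ za t τ b₀ + t / 4 → sv (pat t τ I (amp s b₀ m σ)) 0 i = 0) ∧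
      (za t τ (b₀ + 2 * m) ≤ i → sv (pat t τ I (amp s b₀ m σ)) 0 i = 0) := by
  have hI2 := core_sub t hI
  refine ⟨?_, ?_, ?_, fun h => sum_zero hI s b₀ m σ h⟩
  · rcases Nat.lt_or_ge i τ with hi | hi
    · rw [sv_lt _ hi.le, abs_zero]
      positivity
    · obtain ⟨b, r, hr, rfl⟩ := place (t := t) (by omega) hi
      rw [sv_za_add hI2 _ b r hr.le]
      have hc : ((I ∩ range r).card : ℤ) ≤ I.card := by
        exact_mod_cast card_le_card inter_subset_left
      have hc0 : (0 : ℤ) ≤ ((I ∩ range r).card : ℤ) := Int.natCast_nonneg _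
      have ha := abs_amp_le s b₀ m σ b
      rcases Nat.lt_or_ge b b₀ with hb | hb
      · rw [As_amp_le s b₀ m σ hb.le, amp_lt s b₀ m σ hb]
        simp only [mul_zero, add_zero, abs_zero]
        positivity
      · obtain ⟨j, hj | hj⟩ : ∃ j, b = b₀ + 2 * j ∨ b = b₀ + 2 * j + 1 := ⟨(b - b₀) / 2, by omega⟩
        · subst hj
          rw [As_amp_even, mul_zero, zero_add, abs_mul, abs_of_nonneg hc0, mul_comm |s|]
          exact mul_le_mul hc ha (abs_nonneg _) (Int.natCast_nonneg _)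
        · subst hj
          rw [As_amp_odd]
          have e1 : (I.card : ℤ) * -amp s b₀ m σ (b₀ + 2 * j + 1)
              + ((I ∩ range r).card : ℤ) * amp s b₀ m σ (b₀ + 2 * j + 1)
              = -(((I.card : ℤ) - ((I ∩ range r).card : ℤ)) * amp s b₀ m σ (b₀ + 2 * j + 1)) := by ring
          rw [e1, abs_neg, abs_mul, abs_of_nonneg (by linarith), mul_comm |s|]
          exact mul_le_mul (by linarith) ha (abs_nonneg _) (Int.natCast_nonneg _)
  · intro j h1 h2
    have e1 : za t τ (b₀ + 2 * j + 2) = za t τ (b₀ + 2 * j + 1) + 2 * t := by unfold za; ring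
    have e2 : zb t τ (b₀ + 2 * j + 1) = za t τ (b₀ + 2 * j + 1) + t := by unfold za zb; ring
    rw [e2] at h1
    rcases Nat.lt_or_ge i (za t τ (b₀ + 2 * j + 2)) with hi | hi
    · obtain ⟨r, rfl⟩ := Nat.exists_eq_add_of_le (show za t τ (b₀ + 2 * j + 1) ≤ i by omega)
      rw [sv_za_add hI2 _ _ r (by omega), inter_full hI (by omega), As_amp_odd]
      ring
    · obtain ⟨r, rfl⟩ := Nat.exists_eq_add_of_le hi
      have e3 : b₀ + 2 * j + 2 = b₀ + 2 * (j + 1) := by ring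
      rw [sv_za_add hI2 _ _ r (by omega), inter_empty2 hI (by omega), e3, As_amp_even]
      simp
  · intro h
    rcases Nat.lt_or_ge i τ with hi | hi
    · exact sv_lt _ hi.le
    · obtain ⟨b, r, hr, rfl⟩ := place (t := t) (by omega) hi
      rw [sv_za_add hI2 _ b r hr.le]
      have hb : b ≤ b₀ := by
        by_contra hlt
        have h3 : 2 * t * (b₀ + 1) ≤ 2 * t * b := Nat.mul_le_mul_left _ (by omega)
        have h4 : 2 * t * (b₀ + 1) = 2 * t * b₀ + 2 * t := by ring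
        unfold za at h
        omega
      rcases Nat.lt_or_ge b b₀ with hb' | hb'
      · rw [As_amp_le s b₀ m σ hb, amp_lt s b₀ m σ hb']
        ring
      · have e4 : b = b₀ := by omega
        subst e4
        rw [inter_empty2 hI (by omega), As_amp_le s b m σ le_rfl]
        simp

end Pool.Agent.W_7d29a1_Z2
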