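import Pool.Agent.W_7d29a1_Z2.HoefP2
import Pool.Agent.W_7d29a1_Z2.PatAmp2
import Pool.Agent.W_7d29a1_Z86.Ins86B

/-!
# STORM Z: the field `hoef` of the one step inequality (helper2)

`hoefD1`, `hoefF1`: Hoeffding over the balanced amplitudes for `sp1`, all sub-intervals, the last zone included.
-/

set_option autoImplicit false

namespace Pool.Agent.W_7d29a1_Z2

open MeasureTheory Finset W_7d29a1_Z.CtrOp77 Pool.Agent.W_7d29a1_F Pool.Agent.W_7d29a1_X Pool.Agent.W_7d29a1_Z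
open Pool.Agent.W_7d29a1_Z86 (phi sp1)
open Pool.Agent.W_7d29a1_Z.Asm72
open scoped ENNReal

theorem amp_cases (s : ℤ) (b₀ m : ℕ) (σ : Fin m → Fin 4) (b : ℕ) :
    amp s b₀ m σ b = -s ∨ amp s b₀ m σ b = 0 ∨ amp s b₀ m σ b = s := by
  have hv : ∀ i : Fin 4, Pool.Agent.W_7d29a1_Z.val i = -1 ∨ Pool.Agent.W_7d29a1_Z.val i = 0 ∨
      Pool.Agent.W_7d29a1_Z.val i = 1 := by
    intro i
    fin_cases i <;> simp [Pool.Agent.W_7d29a1_Z.val]
  unfold amp
  split_ifs with h1 h2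
  · rcases hv (σ ⟨(b - b₀) / 2, h1.2⟩) with h | h | h <;> rw [h] <;> simp
  · rcases hv (σ ⟨(b - b₀) / 2, h1.2⟩) with h | h | h <;> rw [h] <;> simp
  · exact Or.inr (Or.inl rfl)

/-- Hoeffding on the event that all contributions are at most `c`. -/
theorem hoef_good (μ : Measure ℝ) [IsProbabilityMeasure μ] (N : ℕ) (y : ℤ) (s : ℤ) (b₀ m : ℕ) (J : Finset ℕ)
    (hJ : ∀ b ∈ J, b₀ ≤ b ∧ (b - b₀) / 2 < m) (F : Env → Finset ℕ → ℕ → ℤ → ℝ)
    (hF : ∀ S b a, Measurable fun η => F η S b a) {c : ℝ} (hc : 0 ≤ c) {u : ℝ} (hu : 0 ≤ u) :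
    ((4 : ℝ≥0∞) ^ m)⁻¹ * ∑ σ : Fin m → Fin 4, P1 μ N y (fun η S =>
      (∀ b ∈ J, |F η S b (-s)| ≤ c ∧ |F η S b 0| ≤ c ∧ |F η S b s| ≤ c) ∧
        u < |∑ b ∈ J, (F η S b (amp s b₀ m σ b) - (F η S b (-s) + 2 * F η S b 0 + F η S b s) / 4)|)
      ≤ ENNReal.ofReal (2 * Real.exp (-(u ^ 2 / (16 * (J.card * c ^ 2))))) := by
  classical
  set G : Env → Finset ℕ → Prop := fun η S => ∀ b ∈ J, |F η S b (-s)| ≤ c ∧ |F η S b 0| ≤ c ∧ |F η S b s| ≤ c with hG
  set F' : Env → Finset ℕ → ℕ → ℤ → ℝ := fun η S b a =>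
    if (a = -s ∨ a = 0 ∨ a = s) ∧ b ∈ J then (if G η S then F η S b a else 0) else 0 with hF'
  have hGm : ∀ S, MeasurableSet {η | G η S} := by
    intro S
    have e1 : {η | G η S} = ⋂ b ∈ J, ({η | |F η S b (-s)| ≤ c} ∩ ({η | |F η S b 0| ≤ c} ∩ {η | |F η S b s| ≤ c})) := by
      ext η
      simp [hG]
    rw [e1]
    refine Finset.measurableSet_biInter _ fun b _ => ?_
    exact (measurableSet_le (hF S b _).abs measurable_const).inter
      ((measurableSet_le (hF S b _).abs measurable_const).inter (measurableSet_le (hF S b _).abs measurable_const))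
  have hF'm : ∀ S b a, Measurable fun η => F' η S b a := by
    intro S b a
    by_cases hq : (a = -s ∨ a = 0 ∨ a = s) ∧ b ∈ J
    · have e1 : (fun η => F' η S b a) = fun η => if G η S then F η S b a else 0 := by
        funext η
        exact if_pos hq
      rw [e1]
      exact Measurable.ite (hGm S) (hF S b a) measurable_const
    · have e1 : (fun η => F' η S b a) = fun _ => 0 := by
        funext η
        exact if_neg hq
      rw [e1]
      exact measurable_const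
  have hval : ∀ η S b a, G η S → (a = -s ∨ a = 0 ∨ a = s) → b ∈ J → F' η S b a = F η S b a := by
    intro η S b a h1 h2 h3
    simp only [hF']
    rw [if_pos ⟨h2, h3⟩, if_pos h1]
  have h := hoef_P1 μ N y s b₀ m J hJ F' hF'm c hu
  have h0 : P1 μ N y (fun η S => ∃ b ∈ J, ∃ a : ℤ, |a| ≤ |s| ∧ c < |F' η S b a|) = 0 := by
    have e1 : (fun (η : Env) (S : Finset ℕ) => ∃ b ∈ J, ∃ a : ℤ, |a| ≤ |s| ∧ c < |F' η S b a|) = fun _ _ => False := by
      funext η S
      refine propext ⟨?_, False.elim⟩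
      rintro ⟨b, hb, a, _, hlt⟩
      simp only [hF'] at hlt
      split_ifs at hlt with h1 h2
      · obtain ⟨h3, h4⟩ := h1
        have h5 := h2 b hb
        rcases h3 with rfl | rfl | rfl
        · linarith [h5.1]
        · linarith [h5.2.1]
        · linarith [h5.2.2]
      · simp only [abs_zero] at hlt
        linarith
      · simp only [abs_zero] at hlt
        linarith
    rw [e1]
    exact Pool.Agent.W_7d29a1_Z86.P1_empty N y
  rw [h0, add_zero] at h
  refine le_trans ?_ h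
  refine mul_le_mul' le_rfl (Finset.sum_le_sum fun σ _ => ?_)
  refine Pool.Agent.W_7d29a1_Z86.P1_mono N y ?_
  rintro η S ⟨h1, h2⟩
  have e1 : ∀ b ∈ J, F' η S b (amp s b₀ m σ b) - (F' η S b (-s) + 2 * F' η S b 0 + F' η S b s) / 4 =
      F η S b (amp s b₀ m σ b) - (F η S b (-s) + 2 * F η S b 0 + F η S b s) / 4 := by
    intro b hb
    rw [hval η S b _ h1 (amp_cases s b₀ m σ b) hb, hval η S b (-s) h1 (Or.inl rfl) hb,
      hval η S b 0 h1 (Or.inr (Or.inl rfl)) hb, hval η S b s h1 (Or.inr (Or.inr rfl)) hb]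
  rw [Finset.sum_congr rfl e1]
  exact h2

/-- The general form of the two bounds: contributions `F`, the last zone (amplitude `0`) costs at most `r c`. -/
theorem hoef_sub (μ : Measure ℝ) [IsProbabilityMeasure μ] (N : ℕ) (y : ℤ) (s : ℤ) {k₀ k₁ x z : ℕ} (hx : k₀ ≤ x)
    (hxz : x < z) (hz : z ≤ k₁) (F : Env → Finset ℕ → ℕ → ℤ → ℝ) (hF : ∀ S b a, Measurable fun η => F η S b a)
    {A' u p c r : ℝ} (hA' : 0 ≤ A') (hu : 0 ≤ u) (hp : 0 ≤ p) (hc : 0 ≤ c) (hcA : c ≤ 2 * A')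
    (hr : 0 ≤ r) (good : Env → Finset ℕ → Prop)
    (hg : ∀ η S, good η S → ∀ b, x ≤ b → b < z → |F η S b (-s)| ≤ c ∧ |F η S b 0| ≤ c ∧ |F η S b s| ≤ c)
    (hgr : ∀ η S, good η S → ∀ b, x ≤ b → b < z → |F η S b 0 - (F η S b (-s) + 2 * F η S b 0 + F η S b s) / 4| ≤ r * A')
    (hG : P1 μ N y (fun η S => ¬ good η S) ≤ ENNReal.ofReal p) :
    ∑ σ : Fin ((k₁ - k₀) / 2) → Fin 4, ((4 : ℝ) ^ ((k₁ - k₀) / 2))⁻¹ * (sp1 μ N y).pr {q |
      (u + r) * √((z - x : ℕ) : ℝ) * A' < |∑ b ∈ Ico x z, (F q.1 q.2 b (amp s k₀ ((k₁ - k₀) / 2) σ b) -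
        (F q.1 q.2 b (-s) + 2 * F q.1 q.2 b 0 + F q.1 q.2 b s) / 4)|} ≤ 2 * Real.exp (-(u ^ 2 / 64)) + p := by
  classical
  set m : ℕ := (k₁ - k₀) / 2 with hm
  set z' : ℕ := min z (k₀ + 2 * m) with hz'
  set J : Finset ℕ := Ico x z' with hJdef
  have hJ : ∀ b ∈ J, k₀ ≤ b ∧ (b - k₀) / 2 < m := by
    intro b hb
    rw [hJdef, mem_Ico] at hb
    constructor
    · omega
    · omega
  set n : ℝ := ((z - x : ℕ) : ℝ) with hn
  have hn1 : 1 ≤ n := by
    rw [hn]
    exact_mod_cast (by omega : 1 ≤ z - x)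
  have hsn : 1 ≤ √n := by
    rw [Real.one_le_sqrt]
    exact hn1
  have hJc : (J.card : ℝ) ≤ n := by
    rw [hJdef, Nat.card_Ico, hn]
    exact_mod_cast (by omega : z' - x ≤ z - x)
  set T : Env → Finset ℕ → (Fin m → Fin 4) → ℕ → ℝ := fun η S σ b =>
    F η S b (amp s k₀ m σ b) - (F η S b (-s) + 2 * F η S b 0 + F η S b s) / 4 with hT
  -- the last zone
  have hlast : ∀ η S σ, good η S → |∑ b ∈ Ico x z, T η S σ b| ≤ |∑ b ∈ J, T η S σ b| + r * √n * A' := by
    intro η S σ hgd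
    rcases Nat.lt_or_ge (k₀ + 2 * m) z with h1 | h1
    · have h2 : z = k₀ + 2 * m + 1 := by omega
      have h3 : z' = z - 1 := by omega
      have h4 : x ≤ z - 1 := by omega
      have h5 : ∑ b ∈ Ico x z, T η S σ b = ∑ b ∈ J, T η S σ b + T η S σ (z - 1) := by
        have h6 : z = (z - 1) + 1 := by omega
        rw [hJdef, h3]
        conv_lhs => rw [h6]
        rw [Finset.sum_Ico_succ_top h4]
      rw [h5]
      refine (abs_add_le _ _).trans ?_
      have h7 : |T η S σ (z - 1)| ≤ r * A' := by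
        simp only [hT]
        rw [show amp s k₀ m σ (z - 1) = 0 from amp_ge s k₀ m σ (by omega)]
        exact hgr η S hgd (z - 1) h4 (by omega)
      have h8 : r * A' ≤ r * √n * A' := by
        have : 0 ≤ r * A' := mul_nonneg hr hA'
        nlinarith
      linarith
    · have h2 : z' = z := by omega
      rw [hJdef, h2]
      have : 0 ≤ r * √n * A' := by positivity
      linarith
  -- the bound for one list of symbols
  have hbound : ((4 : ℝ≥0∞) ^ m)⁻¹ * ∑ σ : Fin m → Fin 4, P1 μ N y (fun η S => good η S ∧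
      (u + r) * √n * A' < |∑ b ∈ Ico x z, T η S σ b|) ≤ ENNReal.ofReal (2 * Real.exp (-(u ^ 2 / 64))) := by
    have hK0 : ((4 : ℝ≥0∞) ^ m) ≠ 0 := by positivity
    have hKt : ((4 : ℝ≥0∞) ^ m) ≠ ⊤ := ENNReal.pow_ne_top (by norm_num)
    by_cases hdeg : A' = 0 ∨ c = 0
    · -- everything vanishes
      have hc0 : c = 0 := by
        rcases hdeg with h | h
        · rw [h] at hcA
          linarith
        · exact h
      have h1 : ∀ σ : Fin m → Fin 4, P1 μ N y (fun η S => good η S ∧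
          (u + r) * √n * A' < |∑ b ∈ Ico x z, T η S σ b|) = 0 := by
        intro σ
        have e1 : (fun (η : Env) (S : Finset ℕ) => good η S ∧ (u + r) * √n * A' < |∑ b ∈ Ico x z, T η S σ b|) =
            fun _ _ => False := by
          funext η S
          refine propext ⟨?_, False.elim⟩
          rintro ⟨h2, h3⟩
          have h4 : ∑ b ∈ Ico x z, T η S σ b = 0 := by
            refine Finset.sum_eq_zero fun b hb => ?_
            rw [mem_Ico] at hb
            obtain ⟨g1, g2, g3⟩ := hg η S h2 b hb.1 hb.2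
            rw [hc0] at g1 g2 g3
            have g1' := abs_nonpos_iff.1 g1
            have g2' := abs_nonpos_iff.1 g2
            have g3' := abs_nonpos_iff.1 g3
            simp only [hT]
            rcases amp_cases s k₀ m σ b with h | h | h <;> rw [h] <;> simp only [g1', g2', g3'] <;> norm_num
          rw [h4, abs_zero] at h3
          have : 0 ≤ (u + r) * √n * A' := by positivity
          linarith
        rw [e1]
        exact Pool.Agent.W_7d29a1_Z86.P1_empty N y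
      simp only [h1, Finset.sum_const_zero, mul_zero]
      exact zero_le
    · push Not at hdeg
      have hA1 : 0 < A' := lt_of_le_of_ne hA' (Ne.symm hdeg.1)
      have hc1 : 0 < c := lt_of_le_of_ne hc (Ne.symm hdeg.2)
      have hmono : ∀ σ : Fin m → Fin 4, P1 μ N y (fun η S => good η S ∧
          (u + r) * √n * A' < |∑ b ∈ Ico x z, T η S σ b|) ≤ P1 μ N y (fun η S =>
          (∀ b ∈ J, |F η S b (-s)| ≤ c ∧ |F η S b 0| ≤ c ∧ |F η S b s| ≤ c) ∧ u * √n * A' < |∑ b ∈ J, T η S σ b|) := by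
        intro σ
        refine Pool.Agent.W_7d29a1_Z86.P1_mono N y ?_
        rintro η S ⟨h1, h2⟩
        refine ⟨fun b hb => ?_, ?_⟩
        · rw [hJdef, mem_Ico] at hb
          exact hg η S h1 b hb.1 (by omega)
        · have h3 := hlast η S σ h1
          nlinarith
      rcases Nat.eq_zero_or_pos J.card with hJ0 | hJ0
      · have hJe : J = ∅ := Finset.card_eq_zero.1 hJ0
        have h1 : ∀ σ : Fin m → Fin 4, P1 μ N y (fun η S =>
            (∀ b ∈ J, |F η S b (-s)| ≤ c ∧ |F η S b 0| ≤ c ∧ |F η S b s| ≤ c) ∧ u * √n * A' < |∑ b ∈ J, T η S σ b|) = 0 := by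
          intro σ
          have e1 : (fun (η : Env) (S : Finset ℕ) =>
              (∀ b ∈ J, |F η S b (-s)| ≤ c ∧ |F η S b 0| ≤ c ∧ |F η S b s| ≤ c) ∧ u * √n * A' < |∑ b ∈ J, T η S σ b|) =
              fun _ _ => False := by
            funext η S
            refine propext ⟨?_, False.elim⟩
            rintro ⟨_, h3⟩
            rw [hJe, Finset.sum_empty, abs_zero] at h3
            have : 0 ≤ u * √n * A' := by positivity
            linarith
          rw [e1]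
          exact Pool.Agent.W_7d29a1_Z86.P1_empty N y
        have h2 : ∀ σ : Fin m → Fin 4, P1 μ N y (fun η S => good η S ∧
            (u + r) * √n * A' < |∑ b ∈ Ico x z, T η S σ b|) = 0 := by
          intro σ
          exact le_antisymm ((hmono σ).trans (le_of_eq (h1 σ))) zero_le
        simp only [h2, Finset.sum_const_zero, mul_zero]
        exact zero_le
      · have key := hoef_good μ N y s k₀ m J hJ F hF hc (u := u * √n * A') (by positivity)
        refine le_trans (mul_le_mul' le_rfl (Finset.sum_le_sum fun σ _ => hmono σ)) (key.trans ?_)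
        refine ENNReal.ofReal_le_ofReal ?_
        refine mul_le_mul_of_nonneg_left (Real.exp_le_exp.2 ?_) (by norm_num)
        rw [neg_le_neg_iff]
        have hJp : (0 : ℝ) < J.card := by exact_mod_cast hJ0
        rw [div_le_div_iff₀ (by norm_num) (by positivity)]
        rw [mul_pow, mul_pow, Real.sq_sqrt (by linarith)]
        have h5 : c ^ 2 ≤ 4 * A' ^ 2 := by nlinarith
        have h6 : (J.card : ℝ) * c ^ 2 ≤ n * (4 * A' ^ 2) := by
          refine mul_le_mul hJc h5 (by positivity) (by linarith)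
        have h7 : 0 ≤ u ^ 2 := sq_nonneg u
        nlinarith
  -- all together
  have hsplit : ∀ σ : Fin m → Fin 4, P1 μ N y (fun η S => (u + r) * √n * A' < |∑ b ∈ Ico x z, T η S σ b|) ≤
      P1 μ N y (fun η S => good η S ∧ (u + r) * √n * A' < |∑ b ∈ Ico x z, T η S σ b|) + ENNReal.ofReal p := by
    intro σ
    refine le_trans (Pool.Agent.W_7d29a1_Z86.P1_mono N y (B := fun η S => (good η S ∧
      (u + r) * √n * A' < |∑ b ∈ Ico x z, T η S σ b|) ∨ ¬ good η S) ?_)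
      ((Pool.Agent.W_7d29a1_Z86.P1_union N y _ _).trans (add_le_add le_rfl hG))
    intro η S h1
    by_cases h2 : good η S
    · exact Or.inl ⟨h2, h1⟩
    · exact Or.inr h2
  have hfin : ∀ σ : Fin m → Fin 4,
      P1 μ N y (fun η S => good η S ∧ (u + r) * √n * A' < |∑ b ∈ Ico x z, T η S σ b|) ≠ ⊤ := fun σ =>
    ne_top_of_le_ne_top ENNReal.one_ne_top (Pool.Agent.W_7d29a1_Z86.P1_le_one N y _)
  have hreal : ∀ σ : Fin m → Fin 4,
      (P1 μ N y (fun η S => (u + r) * √n * A' < |∑ b ∈ Ico x z, T η S σ b|)).toReal ≤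
      (P1 μ N y (fun η S => good η S ∧ (u + r) * √n * A' < |∑ b ∈ Ico x z, T η S σ b|)).toReal + p := by
    intro σ
    have h1 := ENNReal.toReal_mono (ENNReal.add_ne_top.2 ⟨hfin σ, ENNReal.ofReal_ne_top⟩) (hsplit σ)
    rwa [ENNReal.toReal_add (hfin σ) ENNReal.ofReal_ne_top, ENNReal.toReal_ofReal hp] at h1
  have hbr : ((4 : ℝ) ^ m)⁻¹ * ∑ σ : Fin m → Fin 4,
      (P1 μ N y (fun η S => good η S ∧ (u + r) * √n * A' < |∑ b ∈ Ico x z, T η S σ b|)).toReal ≤
      2 * Real.exp (-(u ^ 2 / 64)) := by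
    have h1 := ENNReal.toReal_mono ENNReal.ofReal_ne_top hbound
    rw [ENNReal.toReal_ofReal (by positivity), ENNReal.toReal_mul, ENNReal.toReal_inv, ENNReal.toReal_pow,
      ENNReal.toReal_sum (fun σ _ => hfin σ)] at h1
    simpa using h1
  have hpr : ∀ σ : Fin m → Fin 4, (sp1 μ N y).pr {q | (u + r) * √n * A' < |∑ b ∈ Ico x z, (F q.1 q.2 b (amp s k₀ m σ b) -
        (F q.1 q.2 b (-s) + 2 * F q.1 q.2 b 0 + F q.1 q.2 b s) / 4)|} =
      (P1 μ N y (fun η S => (u + r) * √n * A' < |∑ b ∈ Ico x z, T η S σ b|)).toReal := fun σ => rfl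
  calc ∑ σ : Fin m → Fin 4, ((4 : ℝ) ^ m)⁻¹ * (sp1 μ N y).pr {q | (u + r) * √n * A' <
        |∑ b ∈ Ico x z, (F q.1 q.2 b (amp s k₀ m σ b) -
        (F q.1 q.2 b (-s) + 2 * F q.1 q.2 b 0 + F q.1 q.2 b s) / 4)|}
      ≤ ∑ σ : Fin m → Fin 4, ((4 : ℝ) ^ m)⁻¹ *
        ((P1 μ N y (fun η S => good η S ∧ (u + r) * √n * A' < |∑ b ∈ Ico x z, T η S σ b|)).toReal + p) := by
        refine Finset.sum_le_sum fun σ _ => ?_
        rw [hpr σ]
        exact mul_le_mul_of_nonneg_left (hreal σ) (by positivity)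
    _ = ((4 : ℝ) ^ m)⁻¹ * ∑ σ : Fin m → Fin 4,
        (P1 μ N y (fun η S => good η S ∧ (u + r) * √n * A' < |∑ b ∈ Ico x z, T η S σ b|)).toReal + p := by
        rw [← Finset.mul_sum, Finset.sum_add_distrib, Finset.sum_const, Finset.card_univ, nsmul_eq_mul, mul_add]
        congr 1
        rw [Fintype.card_fun, Fintype.card_fin, Fintype.card_fin]
        push_cast
        field_simp
    _ ≤ _ := by linarith

/-- Field `hoef`: second differences. -/
theorem hoefD1 {μ : Measure ℝ} [IsProbabilityMeasure μ] {N : ℕ} {y : ℤ} (t τ : ℕ) (I : Finset ℕ) (s : ℤ)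
    {k₀ k₁ x z : ℕ} (hx : k₀ ≤ x) (hxz : x < z) (hz : z ≤ k₁) {A' u p : ℝ} (hA' : 0 ≤ A') (hu : 0 ≤ u) (hp : 0 ≤ p)
    (hG : P1 μ N y (fun η S => ¬ ∀ b, x ≤ b → b < z → ∀ i : ℤ, |i| ≤ 1 →
      |D s (phi μ t τ I (η, S) b) (i * s)| ≤ 2 * A') ≤ ENNReal.ofReal p) :
    ∑ σ : Fin ((k₁ - k₀) / 2) → Fin 4, ((4 : ℝ) ^ ((k₁ - k₀) / 2))⁻¹ * (sp1 μ N y).pr {q |
      (u + 4) * √((z - x : ℕ) : ℝ) * A' < |XV s (Ico x z) (phi μ t τ I q) (amp s k₀ ((k₁ - k₀) / 2) σ) -
        Xs (2 * s) (Ico x z) (phi μ t τ I q) / 4|} ≤ 2 * Real.exp (-(u ^ 2 / 64)) + p := by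
  have hvals : ∀ η S, (∀ b, x ≤ b → b < z → ∀ i : ℤ, |i| ≤ 1 → |D s (phi μ t τ I (η, S) b) (i * s)| ≤ 2 * A') →
      ∀ b, x ≤ b → b < z → |Db μ t τ I s η b (-s) (pos S)| ≤ 2 * A' ∧ |Db μ t τ I s η b 0 (pos S)| ≤ 2 * A' ∧
        |Db μ t τ I s η b s (pos S)| ≤ 2 * A' := by
    intro η S h b h1 h2
    have e1 := h b h1 h2 (-1) (by norm_num)
    have e2 := h b h1 h2 0 (by norm_num)
    have e3 := h b h1 h2 1 (by norm_num)
    rw [Pool.Agent.W_7d29a1_Z86.D_phi] at e1 e2 e3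
    rw [neg_one_mul] at e1
    rw [zero_mul] at e2
    rw [one_mul] at e3
    exact ⟨e1, e2, e3⟩
  have h := hoef_sub μ N y s hx hxz hz (fun η S b a => Db μ t τ I s η b a (pos S))
    (fun S b a => meas_Db μ t τ I s b a (pos S)) hA' hu hp (c := 2 * A') (by positivity) le_rfl (r := 4) (by norm_num)
    (fun η S => ∀ b, x ≤ b → b < z → ∀ i : ℤ, |i| ≤ 1 → |D s (phi μ t τ I (η, S) b) (i * s)| ≤ 2 * A')
    hvals (fun η S h b h1 h2 => by
      obtain ⟨e1, e2, e3⟩ := hvals η S h b h1 h2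
      rw [abs_le] at e1 e2 e3 ⊢
      constructor <;> linarith [e1.1, e1.2, e2.1, e2.2, e3.1, e3.2]) hG
  refine le_trans (le_of_eq ?_) h
  refine Finset.sum_congr rfl fun σ _ => ?_
  congr 2
  ext q
  rw [Set.mem_ofPred_eq, Set.mem_ofPred_eq]
  have e1 : XV s (Ico x z) (phi μ t τ I q) (amp s k₀ ((k₁ - k₀) / 2) σ) - Xs (2 * s) (Ico x z) (phi μ t τ I q) / 4 =
      ∑ b ∈ Ico x z, (Db μ t τ I s q.1 b (amp s k₀ ((k₁ - k₀) / 2) σ b) (pos q.2) -
        (Db μ t τ I s q.1 b (-s) (pos q.2) + 2 * Db μ t τ I s q.1 b 0 (pos q.2) + Db μ t τ I s q.1 b s (pos q.2)) / 4) := by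
    unfold XV Xs
    rw [Finset.sum_div, ← Finset.sum_sub_distrib]
    refine Finset.sum_congr rfl fun b _ => ?_
    rw [Pool.Agent.W_7d29a1_Z86.D_phi]
    congr 1
    show D (2 * s) (phi μ t τ I q b) 0 / 4 = _
    unfold D phi Db
    have e1 : -s + s = 0 := by ring
    have e2 : -s - s = 0 - 2 * s := by ring
    have e3 : s + s = 0 + 2 * s := by ring
    have e4 : s - s = 0 := by ring
    have e5 : (0 : ℤ) + s = s := by ring
    have e6 : (0 : ℤ) - s = -s := by ring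
    rw [e1, e2, e3, e4, e5, e6]
    ring
  rw [e1]

/-- Hoeffding for the responses (size of the depth). -/
theorem hoefF1 {μ : Measure ℝ} [IsProbabilityMeasure μ] {N : ℕ} {y : ℤ} (t τ : ℕ) (I : Finset ℕ) (s : ℤ)
    {k₀ k₁ x z : ℕ} (hx : k₀ ≤ x) (hxz : x < z) (hz : z ≤ k₁) {A' u p : ℝ} (hA' : 0 ≤ A') (hu : 0 ≤ u) (hp : 0 ≤ p)
    (hG : P1 μ N y (fun η S => ¬ ∀ b, x ≤ b → b < z →
      |fb μ t τ I η b s (pos S) - fb μ t τ I η b 0 (pos S)| ≤ A' ∧
      |fb μ t τ I η b (-s) (pos S) - fb μ t τ I η b 0 (pos S)| ≤ A') ≤ ENNReal.ofReal p) :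
    ∑ σ : Fin ((k₁ - k₀) / 2) → Fin 4, ((4 : ℝ) ^ ((k₁ - k₀) / 2))⁻¹ * (sp1 μ N y).pr {q |
      (u + 1) * √((z - x : ℕ) : ℝ) * A' < |∑ b ∈ Ico x z, (fb μ t τ I q.1 b (amp s k₀ ((k₁ - k₀) / 2) σ b) (pos q.2) -
        fb μ t τ I q.1 b 0 (pos q.2) - Db μ t τ I s q.1 b 0 (pos q.2) / 4)|} ≤ 2 * Real.exp (-(u ^ 2 / 64)) + p := by
  have h := hoef_sub μ N y s hx hxz hz (fun η S b a => fb μ t τ I η b a (pos S) - fb μ t τ I η b 0 (pos S))
    (fun S b a => (meas_fb μ t τ I b a (pos S)).sub (meas_fb μ t τ I b 0 (pos S))) hA' hu hp (c := A') hA'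
    (by linarith) (r := 1) (by norm_num)
    (fun η S => ∀ b, x ≤ b → b < z → |fb μ t τ I η b s (pos S) - fb μ t τ I η b 0 (pos S)| ≤ A' ∧
      |fb μ t τ I η b (-s) (pos S) - fb μ t τ I η b 0 (pos S)| ≤ A')
    (fun η S h b h1 h2 => by
      obtain ⟨e1, e2⟩ := h b h1 h2
      refine ⟨e2, ?_, e1⟩
      rw [sub_self, abs_zero]
      exact hA')
    (fun η S h b h1 h2 => by
      obtain ⟨e1, e2⟩ := h b h1 h2
      rw [abs_le] at e1 e2 ⊢
      constructor <;> linarith [e1.1, e1.2, e2.1, e2.2]) hG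
  refine le_trans (le_of_eq ?_) h
  refine Finset.sum_congr rfl fun σ _ => ?_
  congr 2
  ext q
  rw [Set.mem_ofPred_eq, Set.mem_ofPred_eq]
  have e1 : ∀ b ∈ Ico x z, fb μ t τ I q.1 b (amp s k₀ ((k₁ - k₀) / 2) σ b) (pos q.2) -
        fb μ t τ I q.1 b 0 (pos q.2) - Db μ t τ I s q.1 b 0 (pos q.2) / 4 =
      fb μ t τ I q.1 b (amp s k₀ ((k₁ - k₀) / 2) σ b) (pos q.2) - fb μ t τ I q.1 b 0 (pos q.2) -
        ((fb μ t τ I q.1 b (-s) (pos q.2) - fb μ t τ I q.1 b 0 (pos q.2)) +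
        2 * (fb μ t τ I q.1 b 0 (pos q.2) - fb μ t τ I q.1 b 0 (pos q.2)) +
        (fb μ t τ I q.1 b s (pos q.2) - fb μ t τ I q.1 b 0 (pos q.2))) / 4 := by
    intro b _
    unfold Db
    have e5 : (0 : ℤ) + s = s := by ring
    have e6 : (0 : ℤ) - s = -s := by ring
    rw [e5, e6]
    ring
  rw [Finset.sum_congr rfl e1]

end Pool.Agent.W_7d29a1_Z2
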