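import Pool.Agent.W_7d29a1_Z.CtrOp77
import Mathlib

/-!
# STORM Z: Hoeffding over the symbols, at the level of a law `ν` of `y = (environment, path)`

`hoef_meas`: blocks `b ∈ J`, contribution `ψ y b w` of the block `b` if the symbol of its pair is `w`
(`v` uniform and independent of `y`); off the bad set `Gᶜ` all contributions are at most `c`.
`hoef_D`: the sum of `D s` at the balanced shears is a quarter of the sum of `D (2 s)` at `0`.
`hoef_f`: the sum of the responses `f V - f 0` (the depth) is a quarter of the sum of `D s` at `0`. (helper2)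
-/

set_option autoImplicit false

namespace Pool.Agent.W_7d29a1_Z2

open MeasureTheory Finset W_7d29a1_Z.CtrOp77

noncomputable section

variable {Y : Type*} [MeasurableSpace Y]

/-- Hoeffding over the pairs of blocks, quenched in `y`, averaged over the law `ν` of `y`. -/
theorem hoef_meas (ν : Measure Y) [IsProbabilityMeasure ν] {W : Type*} [Fintype W] [Nonempty W] (n : ℕ)
    (J : Finset ℕ) (hJ : ∀ b ∈ J, b / 2 < n) (ψ : Y → ℕ → W → ℝ)
    (hψ : ∀ b ∈ J, ∀ w, Measurable fun y => ψ y b w) (G : Set Y) (c : ℝ)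
    (hG : ∀ y ∈ G, ∀ b ∈ J, ∀ w, |ψ y b w| ≤ c) {u : ℝ} (hu : 0 ≤ u) :
    avg (fun v : Fin n → W => ν.real {y | u < |∑ b ∈ J, (ψ y b (sy v b) - avg (ψ y b))|})
      ≤ 2 * Real.exp (-(u ^ 2 / (16 * (J.card * c ^ 2)))) + ν.real Gᶜ := by
  classical
  set G' : Set Y := {y | ∀ b ∈ J, ∀ w, |ψ y b w| ≤ c} with hG'
  have hGG : G ⊆ G' := fun y hy => hG y hy
  have hG'm : MeasurableSet G' := by
    have : G' = ⋂ b ∈ J, ⋂ w : W, {y | |ψ y b w| ≤ c} := by
      ext y; simp [hG']
    rw [this]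
    refine Finset.measurableSet_biInter _ fun b hb => MeasurableSet.iInter fun w => ?_
    exact measurableSet_le (hψ b hb w).abs measurable_const
  set E : (Fin n → W) → Set Y := fun v => {y | u < |∑ b ∈ J, (ψ y b (sy v b) - avg (ψ y b))|} with hE
  have hEm : ∀ v, MeasurableSet (E v) := by
    intro v
    refine measurableSet_lt measurable_const ?_
    refine Measurable.abs (Finset.measurable_fun_sum _ fun b hb => ?_)
    refine (hψ b hb _).sub ?_
    unfold avg
    exact (Finset.measurable_fun_sum _ fun w _ => hψ b hb w).div_const _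
  have h1 : ∀ v, ν.real (E v) ≤ ν.real (E v ∩ G') + ν.real Gᶜ := by
    intro v
    have hsub : E v ⊆ (E v ∩ G') ∪ Gᶜ := by
      intro y hy
      by_cases h : y ∈ G
      · exact Or.inl ⟨hy, hGG h⟩
      · exact Or.inr h
    exact (measureReal_mono hsub).trans (measureReal_union_le _ _)
  have h2 : avg (fun v => ν.real (E v)) ≤ avg (fun v => ν.real (E v ∩ G')) + ν.real Gᶜ := by
    calc avg (fun v => ν.real (E v)) ≤ avg (fun v => ν.real (E v ∩ G') + ν.real Gᶜ) := avg_mono h1
      _ = avg (fun v => ν.real (E v ∩ G')) + avg (fun _ => ν.real Gᶜ) := avg_add _ _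
      _ = _ := by rw [avg_const]
  have h3 : avg (fun v => ν.real (E v ∩ G'))
      = ∫ y, avg (fun v => (E v ∩ G').indicator (fun _ => (1 : ℝ)) y) ∂ν := by
    unfold avg
    rw [integral_div, integral_finsetSum]
    · congr 1
      refine sum_congr rfl fun v _ => ?_
      rw [integral_indicator ((hEm v).inter hG'm)]
      simp [Measure.real]
    · intro v _
      exact (integrable_const (1 : ℝ)).indicator ((hEm v).inter hG'm)
  have h4 : ∀ y, avg (fun v => (E v ∩ G').indicator (fun _ => (1 : ℝ)) y)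
      ≤ 2 * Real.exp (-(u ^ 2 / (16 * (J.card * c ^ 2)))) := by
    intro y
    by_cases hy : y ∈ G'
    · have hc : ∀ b ∈ J, ∀ w, |ψ y b w - avg (ψ y b)| ≤ 2 * c := by
        intro b hb w
        have ha : |avg (ψ y b)| ≤ c := by
          have hc0 : ∀ w, |ψ y b w| ≤ c := fun w => hy b hb w
          rw [abs_le]
          constructor
          · calc -c = avg (fun _ : W => -c) := (avg_const _).symm
              _ ≤ avg (ψ y b) := avg_mono fun w => (abs_le.1 (hc0 w)).1
          · calc avg (ψ y b) ≤ avg (fun _ : W => c) := avg_mono fun w => (abs_le.1 (hc0 w)).2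
              _ = c := avg_const _
        have h5 := abs_sub (ψ y b w) (avg (ψ y b))
        have h6 := hy b hb w
        linarith
      have key := hoeff_pairs n J hJ (ψ y) (2 * c) hc hu
      have e1 : (4 : ℝ) * (J.card * (2 * c) ^ 2) = 16 * (J.card * c ^ 2) := by ring
      rw [e1] at key
      refine le_trans (le_of_eq ?_) key
      congr 1
      funext v
      unfold ind
      by_cases hv : u < |∑ b ∈ J, (ψ y b (sy v b) - avg (ψ y b))|
      · rw [if_pos hv, Set.indicator_of_mem (show y ∈ E v ∩ G' from ⟨hv, hy⟩)]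
      · rw [if_neg hv, Set.indicator_of_notMem (fun h => hv h.1)]
    · have : (fun v => (E v ∩ G').indicator (fun _ => (1 : ℝ)) y) = fun _ => 0 := by
        funext v
        exact Set.indicator_of_notMem (fun h => hy h.2) _
      rw [this, avg_const]
      positivity
  have h5 : ∫ y, avg (fun v => (E v ∩ G').indicator (fun _ => (1 : ℝ)) y) ∂ν
      ≤ 2 * Real.exp (-(u ^ 2 / (16 * (J.card * c ^ 2)))) := by
    calc ∫ y, avg (fun v => (E v ∩ G').indicator (fun _ => (1 : ℝ)) y) ∂ν
        ≤ ∫ _y, 2 * Real.exp (-(u ^ 2 / (16 * (J.card * c ^ 2)))) ∂ν := by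
          refine integral_mono_of_nonneg (ae_of_all _ fun y => ?_) (integrable_const _)
            (ae_of_all _ h4)
          exact avg_nonneg fun v => Set.indicator_nonneg (fun _ _ => zero_le_one) _
      _ = _ := by simp
  calc avg (fun v => ν.real (E v)) ≤ avg (fun v => ν.real (E v ∩ G')) + ν.real Gᶜ := h2
    _ ≤ _ := by rw [h3]; linarith

/-- (HOEF): balanced shears, second differences. -/
theorem hoef_D (ν : Measure Y) [IsProbabilityMeasure ν] (n : ℕ) (J : Finset ℕ) (hJ : ∀ b ∈ J, b / 2 < n) (s : ℤ)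
    (φ : Y → ℕ → ℤ → ℝ) (hφ : ∀ b ∈ J, ∀ a, Measurable fun y => φ y b a) (G : Set Y) (c : ℝ)
    (hG : ∀ y ∈ G, ∀ b ∈ J, ∀ a : ℤ, |a| ≤ |s| → |D s (φ y b) a| ≤ c) {u : ℝ} (hu : 0 ≤ u) :
    avg (fun v : Fin n → Fin 4 => ν.real {y | u < |∑ b ∈ J, D s (φ y b) (sg b * s * q4 (sy v b))
        - (∑ b ∈ J, D (2 * s) (φ y b) 0) / 4|})
      ≤ 2 * Real.exp (-(u ^ 2 / (16 * (J.card * c ^ 2)))) + ν.real Gᶜ := by
  have hmain := hoef_meas ν n J hJ (fun y b (w : Fin 4) => D s (φ y b) (sg b * s * q4 w))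
    (fun b hb w => by
      unfold D
      exact ((hφ b hb _).add (hφ b hb _)).sub ((hφ b hb _).const_mul 2)) G c
    (fun y hy b hb w => by
      refine hG y hy b hb _ ?_
      have h1 := abs_q4 w
      have h2 : |sg b| = 1 := by rcases sg_cases b with h | h <;> rw [h] <;> simp
      rw [abs_mul, abs_mul, h2, one_mul]
      calc |s| * |q4 w| ≤ |s| * 1 := mul_le_mul_of_nonneg_left h1 (abs_nonneg s)
        _ = |s| := mul_one _) hu
  have e : ∀ (v : Fin n → Fin 4) (y : Y),
      ∑ b ∈ J, (D s (φ y b) (sg b * s * q4 (sy v b)) - avg (fun w : Fin 4 => D s (φ y b) (sg b * s * q4 w)))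
        = ∑ b ∈ J, D s (φ y b) (sg b * s * q4 (sy v b)) - (∑ b ∈ J, D (2 * s) (φ y b) 0) / 4 := by
    intro v y
    rw [sum_sub_distrib, sum_div]
    congr 1
    refine sum_congr rfl fun b _ => ?_
    have := avg_D (sg_cases b) s (φ y b) 0
    simpa using this
  simpa only [e] using hmain

/-- The depth: balanced shears, responses. -/
theorem hoef_f (ν : Measure Y) [IsProbabilityMeasure ν] (n : ℕ) (J : Finset ℕ) (hJ : ∀ b ∈ J, b / 2 < n) (s : ℤ)
    (φ : Y → ℕ → ℤ → ℝ) (hφ : ∀ b ∈ J, ∀ a, Measurable fun y => φ y b a) (G : Set Y) (c : ℝ)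
    (hG : ∀ y ∈ G, ∀ b ∈ J, ∀ a : ℤ, |a| ≤ |s| → |φ y b a - φ y b 0| ≤ c) {u : ℝ} (hu : 0 ≤ u) :
    avg (fun v : Fin n → Fin 4 => ν.real {y | u < |∑ b ∈ J, (φ y b (sg b * s * q4 (sy v b)) - φ y b 0)
        - (∑ b ∈ J, D s (φ y b) 0) / 4|})
      ≤ 2 * Real.exp (-(u ^ 2 / (16 * (J.card * c ^ 2)))) + ν.real Gᶜ := by
  have hmain := hoef_meas ν n J hJ (fun y b (w : Fin 4) => φ y b (sg b * s * q4 w) - φ y b 0)
    (fun b hb w => (hφ b hb _).sub (hφ b hb _)) G c
    (fun y hy b hb w => by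
      refine hG y hy b hb _ ?_
      have h1 := abs_q4 w
      have h2 : |sg b| = 1 := by rcases sg_cases b with h | h <;> rw [h] <;> simp
      rw [abs_mul, abs_mul, h2, one_mul]
      calc |s| * |q4 w| ≤ |s| * 1 := mul_le_mul_of_nonneg_left h1 (abs_nonneg s)
        _ = |s| := mul_one _) hu
  have e : ∀ (v : Fin n → Fin 4) (y : Y),
      ∑ b ∈ J, ((φ y b (sg b * s * q4 (sy v b)) - φ y b 0)
          - avg (fun w : Fin 4 => φ y b (sg b * s * q4 w) - φ y b 0))
        = ∑ b ∈ J, (φ y b (sg b * s * q4 (sy v b)) - φ y b 0) - (∑ b ∈ J, D s (φ y b) 0) / 4 := by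
    intro v y
    rw [sum_sub_distrib, sum_div]
    congr 1
    refine sum_congr rfl fun b _ => ?_
    have h1 := avg_f (sg_cases b) s (φ y b) 0
    rw [avg_sub, avg_const]
    simpa using h1
  simpa only [e] using hmain

end

end Pool.Agent.W_7d29a1_Z2
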