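import Pool.Agent.W_7d29a1_Z2.Hoef2
import Pool.Agent.W_7d29a1_Z.Defs
import Pool.Agent.W_7d29a1_F.CoreD1

/-!
# STORM Z: Hoeffding over the balanced amplitudes, annealed probabilities `P1` (helper2)

`hoef_P1_D`: the mean over the symbols `σ` of the probability that the sum over the zones `b ∈ J` of the second differences
`Db s` at the amplitudes `amp s b₀ m σ b` differs by more than `u` from a quarter of the sum of `Db (2 s)` at `0`.
`hoef_P1_f`: the same for the responses `fb (amp) - fb 0` and a quarter of the sum of `Db s` at `0`.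
-/

set_option autoImplicit false

namespace Pool.Agent.W_7d29a1_Z2

open MeasureTheory Finset W_7d29a1_Z.CtrOp77 Pool.Agent.W_7d29a1_F Pool.Agent.W_7d29a1_X Pool.Agent.W_7d29a1_Z
open scoped ENNReal

noncomputable section

/-- Hoeffding over the pairs, contributions bounded by `c`. -/
theorem hoef_point {W : Type*} [Fintype W] [Nonempty W] (n : ℕ) (J : Finset ℕ) (hJ : ∀ b ∈ J, b / 2 < n)
    (ψ : ℕ → W → ℝ) (c : ℝ) (hc : ∀ b ∈ J, ∀ w, |ψ b w| ≤ c) {u : ℝ} (hu : 0 ≤ u) :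
    avg (fun v : Fin n → W => ind (u < |∑ b ∈ J, (ψ b (sy v b) - avg (ψ b))|))
      ≤ 2 * Real.exp (-(u ^ 2 / (16 * (J.card * c ^ 2)))) := by
  have hc' : ∀ b ∈ J, ∀ w, |ψ b w - avg (ψ b)| ≤ 2 * c := by
    intro b hb w
    have ha : |avg (ψ b)| ≤ c := by
      have hc0 : ∀ w, |ψ b w| ≤ c := fun w => hc b hb w
      rw [abs_le]
      constructor
      · calc -c = avg (fun _ : W => -c) := (avg_const _).symm
          _ ≤ avg (ψ b) := avg_mono fun w => (abs_le.1 (hc0 w)).1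
      · calc avg (ψ b) ≤ avg (fun _ : W => c) := avg_mono fun w => (abs_le.1 (hc0 w)).2
          _ = c := avg_const _
    have h5 := abs_sub (ψ b w) (avg (ψ b))
    have h6 := hc b hb w
    linarith
  have key := hoeff_pairs n J hJ ψ (2 * c) hc' hu
  have e1 : (4 : ℝ) * (J.card * (2 * c) ^ 2) = 16 * (J.card * c ^ 2) := by ring
  rwa [e1] at key

/-- The version for an arbitrary measure. -/
theorem hoef_enn {Y : Type*} [MeasurableSpace Y] (ν : Measure Y) {W : Type*} [Fintype W] [Nonempty W] (n : ℕ)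
    (J : Finset ℕ) (hJ : ∀ b ∈ J, b / 2 < n) (ψ : Y → ℕ → W → ℝ)
    (hψ : ∀ b ∈ J, ∀ w, Measurable fun y => ψ y b w) (c : ℝ) {u : ℝ} (hu : 0 ≤ u) :
    (Fintype.card (Fin n → W) : ℝ≥0∞)⁻¹ *
        ∑ v : Fin n → W, ν {y | u < |∑ b ∈ J, (ψ y b (sy v b) - avg (ψ y b))|}
      ≤ ENNReal.ofReal (2 * Real.exp (-(u ^ 2 / (16 * (J.card * c ^ 2))))) * ν Set.univ
        + ν {y | ∃ b ∈ J, ∃ w, c < |ψ y b w|} := by
  classical
  set B : ℝ := 2 * Real.exp (-(u ^ 2 / (16 * (J.card * c ^ 2)))) with hB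
  set E : (Fin n → W) → Set Y := fun v => {y | u < |∑ b ∈ J, (ψ y b (sy v b) - avg (ψ y b))|} with hE
  set Bd : Set Y := {y | ∃ b ∈ J, ∃ w, c < |ψ y b w|} with hBd
  set K : ℝ≥0∞ := (Fintype.card (Fin n → W) : ℝ≥0∞) with hK
  have hK0 : K ≠ 0 := by
    rw [hK]; exact_mod_cast Fintype.card_ne_zero
  have hKt : K ≠ ⊤ := by rw [hK]; exact ENNReal.natCast_ne_top _
  have hEm : ∀ v, MeasurableSet (E v) := by
    intro v
    refine measurableSet_lt measurable_const ?_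
    refine Measurable.abs (Finset.measurable_fun_sum _ fun b hb => ?_)
    refine (hψ b hb _).sub ?_
    unfold avg
    exact (Finset.measurable_fun_sum _ fun w _ => hψ b hb w).div_const _
  have hBm : MeasurableSet Bd := by
    have : Bd = ⋃ b ∈ J, ⋃ w : W, {y | c < |ψ y b w|} := by
      ext y; simp [hBd]
    rw [this]
    refine Finset.measurableSet_biUnion _ fun b hb => MeasurableSet.iUnion fun w => ?_
    exact measurableSet_lt measurable_const (hψ b hb w).abs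
  have h1 : ∀ v, ν (E v) ≤ ν (E v ∩ Bdᶜ) + ν Bd := by
    intro v
    have hsub : E v ⊆ (E v ∩ Bdᶜ) ∪ Bd := by
      intro y hy
      by_cases h : y ∈ Bd
      · exact Or.inr h
      · exact Or.inl ⟨hy, h⟩
    exact (measure_mono hsub).trans (measure_union_le _ _)
  have h2 : ∑ v, ν (E v ∩ Bdᶜ) ≤ K * (ENNReal.ofReal B * ν Set.univ) := by
    have e1 : ∀ v, ν (E v ∩ Bdᶜ) = ∫⁻ y, (E v ∩ Bdᶜ).indicator (fun _ => (1 : ℝ≥0∞)) y ∂ν := by
      intro v
      rw [lintegral_indicator ((hEm v).inter hBm.compl)]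
      simp
    simp only [e1]
    rw [← lintegral_finsetSum' _ (fun v _ => (measurable_const.indicator
      ((hEm v).inter hBm.compl)).aemeasurable)]
    have h3 : ∀ y, ∑ v, (E v ∩ Bdᶜ).indicator (fun _ => (1 : ℝ≥0∞)) y ≤ K * ENNReal.ofReal B := by
      intro y
      by_cases hy : y ∈ Bd
      · have : ∀ v, (E v ∩ Bdᶜ).indicator (fun _ => (1 : ℝ≥0∞)) y = 0 :=
          fun v => Set.indicator_of_notMem (fun h => h.2 hy) _
        simp [this]
      · have hc : ∀ b ∈ J, ∀ w, |ψ y b w| ≤ c := by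
          intro b hb w
          by_contra h
          exact hy ⟨b, hb, w, not_le.1 h⟩
        have key := hoef_point n J hJ (ψ y) c hc hu
        unfold avg at key
        have hcard : (0 : ℝ) < (Fintype.card (Fin n → W) : ℝ) := by
          exact_mod_cast Fintype.card_pos
        rw [div_le_iff₀ hcard] at key
        have e2 : ∑ v, (E v ∩ Bdᶜ).indicator (fun _ => (1 : ℝ≥0∞)) y
            = ENNReal.ofReal (∑ v : Fin n → W, ind (u < |∑ b ∈ J, (ψ y b (sy v b) - avg (ψ y b))|)) := by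
          rw [ENNReal.ofReal_sum_of_nonneg (fun v _ => ind_nonneg _)]
          refine sum_congr rfl fun v _ => ?_
          unfold ind
          by_cases hv : u < |∑ b ∈ J, (ψ y b (sy v b) - avg (ψ y b))|
          · rw [if_pos hv, Set.indicator_of_mem (show y ∈ E v ∩ Bdᶜ from ⟨hv, hy⟩), ENNReal.ofReal_one]
          · rw [if_neg hv, Set.indicator_of_notMem (fun h => hv h.1), ENNReal.ofReal_zero]
        rw [e2]
        have e3 : K * ENNReal.ofReal B = ENNReal.ofReal (B * (Fintype.card (Fin n → W) : ℝ)) := by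
          rw [mul_comm B, ENNReal.ofReal_mul hcard.le, ENNReal.ofReal_natCast]
        rw [e3]
        refine ENNReal.ofReal_le_ofReal ?_
        unfold avg
        exact key
    calc ∫⁻ y, ∑ v, (E v ∩ Bdᶜ).indicator (fun _ => (1 : ℝ≥0∞)) y ∂ν ≤ ∫⁻ _y, K * ENNReal.ofReal B ∂ν :=
          lintegral_mono h3
      _ = K * (ENNReal.ofReal B * ν Set.univ) := by rw [lintegral_const, mul_assoc]
  have hsum : ∑ v, ν (E v) ≤ K * (ENNReal.ofReal B * ν Set.univ + ν Bd) := by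
    calc ∑ v, ν (E v) ≤ ∑ v, (ν (E v ∩ Bdᶜ) + ν Bd) := sum_le_sum fun v _ => h1 v
      _ = ∑ v, ν (E v ∩ Bdᶜ) + K * ν Bd := by
          rw [sum_add_distrib, sum_const, card_univ, nsmul_eq_mul]
      _ ≤ K * (ENNReal.ofReal B * ν Set.univ) + K * ν Bd := by gcongr
      _ = _ := by rw [mul_add]
  calc K⁻¹ * ∑ v, ν (E v) ≤ K⁻¹ * (K * (ENNReal.ofReal B * ν Set.univ + ν Bd)) := by gcongr
    _ = _ := by rw [← mul_assoc, ENNReal.inv_mul_cancel hK0 hKt, one_mul]

/-! ### Measurability and total mass -/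

theorem meas_shr (a : ℕ) (v : ℕ → ℤ) : Measurable (shr a v) :=
  measurable_pi_lambda _ fun _ => measurable_pi_apply _

theorem meas_fk (μ : Measure ℝ) (v : ℕ → ℤ) (a b : ℕ) (x y : ℤ) : Measurable fun η : Env => fk μ v η a b x y :=
  Real.measurable_log.comp ((measurable_W (μ := μ) (s := 0) ((a : ℤ), x) (b - a) (y - x + sv v a b)).comp (meas_shr a v))

theorem meas_fb (μ : Measure ℝ) (t τ : ℕ) (I : Finset ℕ) (b : ℕ) (a : ℤ) (X : ℕ → ℤ) :
    Measurable fun η : Env => fb μ t τ I η b a X := meas_fk μ _ _ _ _ _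

theorem meas_Db (μ : Measure ℝ) (t τ : ℕ) (I : Finset ℕ) (s : ℤ) (b : ℕ) (a : ℤ) (X : ℕ → ℤ) :
    Measurable fun η : Env => Db μ t τ I s η b a X :=
  ((meas_fb μ t τ I b _ X).add (meas_fb μ t τ I b _ X)).sub ((meas_fb μ t τ I b a X).const_mul 2)

theorem meas_gp (μ : Measure ℝ) (N : ℕ) (y : ℤ) (S : Finset ℕ) : Measurable fun η : Env => gp μ η N y S := by
  unfold gp
  by_cases h : pos S N = y
  · simp only [h, if_true]
    refine Measurable.div ?_ (measurable_W (μ := μ) (s := 0) 0 N y)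
    unfold pth
    exact measurable_const.mul (Finset.measurable_fun_prod _ fun i _ =>
      Real.measurable_exp.comp (measurable_pi_apply _))
  · simp only [h, if_false]
    exact measurable_const

theorem gp_nonneg2 (μ : Measure ℝ) (η : Env) (N : ℕ) (y : ℤ) (S : Finset ℕ) : 0 ≤ gp μ η N y S := by
  unfold gp
  split_ifs
  · refine div_nonneg (pth_nonneg _ _ _) ?_
    rw [← Mt_one]
    exact Mt_nonneg _ _ (fun _ => zero_le_one) _
  · exact le_rfl

theorem gp_sum_le (μ : Measure ℝ) (η : Env) (N : ℕ) (y : ℤ) : ∑ S ∈ (range N).powerset, gp μ η N y S ≤ 1 := by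
  have h1 : ∑ S ∈ (range N).powerset, gp μ η N y S = W μ 0 η 0 N y / W μ 0 η 0 N y := by
    have h2 := Mt_one (μ := μ) (s := 0) η N y
    unfold Mt at h2
    simp only [mul_one] at h2
    have h3 : ∑ S ∈ (range N).powerset, gp μ η N y S
        = (∑ S ∈ (range N).powerset, if pos S N = y then pth μ 0 η N S else 0) / W μ 0 η 0 N y := by
      rw [sum_div]
      refine sum_congr rfl fun S _ => ?_
      unfold gp
      by_cases h : pos S N = y
      · rw [if_pos h, if_pos h]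
      · rw [if_neg h, if_neg h, zero_div]
    rw [h3, h2]
  rw [h1]
  exact div_self_le_one _

theorem P1_univ_le (μ : Measure ℝ) [IsProbabilityMeasure μ] (N : ℕ) (y : ℤ) :
    ∑ S ∈ (range N).powerset, ((law μ).withDensity fun η => ENNReal.ofReal (gp μ η N y S)) Set.univ ≤ 1 := by
  simp only [withDensity_apply _ MeasurableSet.univ, Measure.restrict_univ]
  rw [← lintegral_finsetSum' _ (fun S _ => (meas_gp μ N y S).ennreal_ofReal.aemeasurable)]
  calc ∫⁻ η, ∑ S ∈ (range N).powerset, ENNReal.ofReal (gp μ η N y S) ∂(law μ) ≤ ∫⁻ _η, 1 ∂(law μ) := by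
        refine lintegral_mono fun η => ?_
        rw [← ENNReal.ofReal_sum_of_nonneg (fun S _ => gp_nonneg2 μ η N y S), ← ENNReal.ofReal_one]
        exact ENNReal.ofReal_le_ofReal (gp_sum_le μ η N y)
    _ = 1 := by simp

/-! ### The balanced amplitudes -/

theorem amp_eq (s : ℤ) (b₀ m : ℕ) (σ : Fin m → Fin 4) (b : ℕ) (h : (b / 2) < m) :
    amp s b₀ m σ (b₀ + b) = sg b * s * q4 (sy σ b) := by
  have hv : ∀ i : Fin 4, val i = q4 i := by
    intro i
    fin_cases i <;> rfl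
  unfold amp
  have e0 : b₀ + b - b₀ = b := by omega
  have hb : b₀ ≤ b₀ + b ∧ (b₀ + b - b₀) / 2 < m := ⟨by omega, by rw [e0]; exact h⟩
  rw [dif_pos hb]
  have hsy : sy σ b = σ ⟨(b₀ + b - b₀) / 2, hb.2⟩ := by
    unfold sy
    rw [dif_pos h]
    congr 1
    exact Fin.ext (by simp only [e0])
  rw [hsy, hv]
  unfold sg
  have e3 : ((b₀ + b - b₀) % 2 = 0) ↔ (b % 2 = 0) := by rw [e0]
  by_cases hp : b % 2 = 0
  · rw [if_pos (e3.2 hp), if_pos hp]
    ring
  · rw [if_neg (fun h => hp (e3.1 h)), if_neg hp]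
    ring

/-- The general form: contributions `F η S b a` of the zones. -/
theorem hoef_P1 (μ : Measure ℝ) [IsProbabilityMeasure μ] (N : ℕ) (y : ℤ) (s : ℤ) (b₀ m : ℕ) (J : Finset ℕ)
    (hJ : ∀ b ∈ J, b₀ ≤ b ∧ (b - b₀) / 2 < m) (F : Env → Finset ℕ → ℕ → ℤ → ℝ)
    (hF : ∀ S b a, Measurable fun η => F η S b a) (c : ℝ) {u : ℝ} (hu : 0 ≤ u) :
    ((4 : ℝ≥0∞) ^ m)⁻¹ * ∑ σ : Fin m → Fin 4, P1 μ N y (fun η S => u < |∑ b ∈ J, (F η S b (amp s b₀ m σ b)
        - (F η S b (-s) + 2 * F η S b 0 + F η S b s) / 4)|)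
      ≤ ENNReal.ofReal (2 * Real.exp (-(u ^ 2 / (16 * (J.card * c ^ 2)))))
        + P1 μ N y (fun η S => ∃ b ∈ J, ∃ a : ℤ, |a| ≤ |s| ∧ c < |F η S b a|) := by
  classical
  set J' : Finset ℕ := J.image (fun b => b - b₀) with hJ'
  have hinj : Set.InjOn (fun b => b - b₀) (J : Set ℕ) := by
    intro a ha b hb hab
    have h1 := (hJ a ha).1
    have h2 := (hJ b hb).1
    simp only at hab
    omega
  have hJ'2 : ∀ b ∈ J', b / 2 < m := by
    intro b hb
    obtain ⟨a, ha, rfl⟩ := mem_image.1 hb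
    exact (hJ a ha).2
  have hcard : J'.card = J.card := card_image_of_injOn hinj
  have hsum : ∀ g : ℕ → ℝ, ∑ b ∈ J, g b = ∑ b ∈ J', g (b₀ + b) := by
    intro g
    rw [hJ', sum_image hinj]
    refine sum_congr rfl fun b hb => ?_
    congr 1
    have := (hJ b hb).1
    omega
  have havg : ∀ (η : Env) (S : Finset ℕ) (b : ℕ), avg (fun w : Fin 4 => F η S (b₀ + b) (sg b * s * q4 w))
      = (F η S (b₀ + b) (-s) + 2 * F η S (b₀ + b) 0 + F η S (b₀ + b) s) / 4 := by
    intro η S b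
    rw [avg_fin4]
    have h0 : q4 0 = -1 := rfl
    have h1 : q4 1 = 0 := rfl
    have h2 : q4 2 = 0 := rfl
    have h3 : q4 3 = 1 := rfl
    rw [h0, h1, h2, h3]
    rcases sg_cases b with h | h <;> rw [h] <;> simp <;> ring
  have key : ∀ S ∈ (range N).powerset,
      ((4 : ℝ≥0∞) ^ m)⁻¹ * ∑ σ : Fin m → Fin 4, ((law μ).withDensity fun η => ENNReal.ofReal (gp μ η N y S))
        {η | u < |∑ b ∈ J, (F η S b (amp s b₀ m σ b) - (F η S b (-s) + 2 * F η S b 0 + F η S b s) / 4)|}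
      ≤ ENNReal.ofReal (2 * Real.exp (-(u ^ 2 / (16 * (J.card * c ^ 2))))) *
          ((law μ).withDensity fun η => ENNReal.ofReal (gp μ η N y S)) Set.univ
        + ((law μ).withDensity fun η => ENNReal.ofReal (gp μ η N y S))
          {η | ∃ b ∈ J, ∃ a : ℤ, |a| ≤ |s| ∧ c < |F η S b a|} := by
    intro S _
    have h := hoef_enn ((law μ).withDensity fun η => ENNReal.ofReal (gp μ η N y S)) m J' hJ'2
      (fun η b (w : Fin 4) => F η S (b₀ + b) (sg b * s * q4 w)) (fun b _ w => hF S _ _) c hu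
    have e1 : (Fintype.card (Fin m → Fin 4) : ℝ≥0∞) = (4 : ℝ≥0∞) ^ m := by
      simp
    rw [e1, hcard] at h
    refine le_trans (le_of_eq ?_) (h.trans ?_)
    · congr 1
      refine sum_congr rfl fun σ _ => ?_
      congr 1
      ext η
      show u < _ ↔ u < _
      rw [hsum]
      have : ∀ b ∈ J', F η S (b₀ + b) (amp s b₀ m σ (b₀ + b))
          - (F η S (b₀ + b) (-s) + 2 * F η S (b₀ + b) 0 + F η S (b₀ + b) s) / 4
          = F η S (b₀ + b) (sg b * s * q4 (sy σ b)) - avg (fun w : Fin 4 => F η S (b₀ + b) (sg b * s * q4 w)) := by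
        intro b hb
        rw [amp_eq s b₀ m σ b (hJ'2 b hb), havg]
      rw [sum_congr rfl this]
    · refine add_le_add le_rfl (measure_mono ?_)
      rintro η ⟨b, hb, w, hw⟩
      obtain ⟨a, ha, rfl⟩ := mem_image.1 hb
      have e2 : b₀ + (a - b₀) = a := by
        have := (hJ a ha).1
        omega
      rw [e2] at hw
      refine ⟨a, ha, _, ?_, hw⟩
      have h1 := abs_q4 w
      have h2 : |sg (a - b₀)| = 1 := by rcases sg_cases (a - b₀) with h | h <;> rw [h] <;> simp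
      rw [abs_mul, abs_mul, h2, one_mul]
      calc |s| * |q4 w| ≤ |s| * 1 := mul_le_mul_of_nonneg_left h1 (abs_nonneg s)
        _ = |s| := mul_one _
  unfold P1
  rw [sum_comm, mul_sum]
  calc _ ≤ ∑ S ∈ (range N).powerset, (ENNReal.ofReal (2 * Real.exp (-(u ^ 2 / (16 * (J.card * c ^ 2))))) *
          ((law μ).withDensity fun η => ENNReal.ofReal (gp μ η N y S)) Set.univ
        + ((law μ).withDensity fun η => ENNReal.ofReal (gp μ η N y S))
          {η | ∃ b ∈ J, ∃ a : ℤ, |a| ≤ |s| ∧ c < |F η S b a|}) := sum_le_sum key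
    _ = ENNReal.ofReal (2 * Real.exp (-(u ^ 2 / (16 * (J.card * c ^ 2))))) *
          ∑ S ∈ (range N).powerset, ((law μ).withDensity fun η => ENNReal.ofReal (gp μ η N y S)) Set.univ
        + ∑ S ∈ (range N).powerset, ((law μ).withDensity fun η => ENNReal.ofReal (gp μ η N y S))
          {η | ∃ b ∈ J, ∃ a : ℤ, |a| ≤ |s| ∧ c < |F η S b a|} := by
        rw [sum_add_distrib, mul_sum]
    _ ≤ ENNReal.ofReal (2 * Real.exp (-(u ^ 2 / (16 * (J.card * c ^ 2))))) * 1
        + ∑ S ∈ (range N).powerset, ((law μ).withDensity fun η => ENNReal.ofReal (gp μ η N y S))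
          {η | ∃ b ∈ J, ∃ a : ℤ, |a| ≤ |s| ∧ c < |F η S b a|} := by
        gcongr
        exact P1_univ_le μ N y
    _ = _ := by rw [mul_one]

/-- Second differences. -/
theorem hoef_P1_D (μ : Measure ℝ) [IsProbabilityMeasure μ] (N : ℕ) (y : ℤ) (t τ : ℕ) (I : Finset ℕ) (s : ℤ) (b₀ m : ℕ)
    (J : Finset ℕ) (hJ : ∀ b ∈ J, b₀ ≤ b ∧ (b - b₀) / 2 < m) (c : ℝ) {u : ℝ} (hu : 0 ≤ u) :
    ((4 : ℝ≥0∞) ^ m)⁻¹ * ∑ σ : Fin m → Fin 4, P1 μ N y (fun η S =>
        u < |∑ b ∈ J, Db μ t τ I s η b (amp s b₀ m σ b) (pos S) - (∑ b ∈ J, Db μ t τ I (2 * s) η b 0 (pos S)) / 4|)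
      ≤ ENNReal.ofReal (2 * Real.exp (-(u ^ 2 / (16 * (J.card * c ^ 2)))))
        + P1 μ N y (fun η S => ∃ b ∈ J, ∃ a : ℤ, |a| ≤ |s| ∧ c < |Db μ t τ I s η b a (pos S)|) := by
  refine le_trans (le_of_eq ?_) (hoef_P1 μ N y s b₀ m J hJ (fun η S b a => Db μ t τ I s η b a (pos S))
    (fun S b a => meas_Db μ t τ I s b a (pos S)) c hu)
  congr 1
  refine sum_congr rfl fun σ _ => ?_
  congr 1
  funext η S
  rw [sum_sub_distrib, sum_div]
  have : ∀ b ∈ J, (Db μ t τ I s η b (-s) (pos S) + 2 * Db μ t τ I s η b 0 (pos S) + Db μ t τ I s η b s (pos S)) / 4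
      = Db μ t τ I (2 * s) η b 0 (pos S) / 4 := by
    intro b _
    unfold Db
    have e1 : -s + s = 0 := by ring
    have e2 : -s - s = 0 - 2 * s := by ring
    have e3 : s + s = 0 + 2 * s := by ring
    have e4 : s - s = 0 := by ring
    have e5 : (0 : ℤ) + s = s := by ring
    have e6 : (0 : ℤ) - s = -s := by ring
    rw [e1, e2, e3, e4, e5, e6]
    ring
  rw [sum_congr rfl this]

/-- Responses. -/
theorem hoef_P1_f (μ : Measure ℝ) [IsProbabilityMeasure μ] (N : ℕ) (y : ℤ) (t τ : ℕ) (I : Finset ℕ) (s : ℤ) (b₀ m : ℕ)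
    (J : Finset ℕ) (hJ : ∀ b ∈ J, b₀ ≤ b ∧ (b - b₀) / 2 < m) (c : ℝ) {u : ℝ} (hu : 0 ≤ u) :
    ((4 : ℝ≥0∞) ^ m)⁻¹ * ∑ σ : Fin m → Fin 4, P1 μ N y (fun η S =>
        u < |∑ b ∈ J, (fb μ t τ I η b (amp s b₀ m σ b) (pos S) - fb μ t τ I η b 0 (pos S))
          - (∑ b ∈ J, Db μ t τ I s η b 0 (pos S)) / 4|)
      ≤ ENNReal.ofReal (2 * Real.exp (-(u ^ 2 / (16 * (J.card * c ^ 2)))))
        + P1 μ N y (fun η S => ∃ b ∈ J, ∃ a : ℤ, |a| ≤ |s| ∧
          c < |fb μ t τ I η b a (pos S) - fb μ t τ I η b 0 (pos S)|) := by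
  refine le_trans (le_of_eq ?_) (hoef_P1 μ N y s b₀ m J hJ
    (fun η S b a => fb μ t τ I η b a (pos S) - fb μ t τ I η b 0 (pos S))
    (fun S b a => (meas_fb μ t τ I b a (pos S)).sub (meas_fb μ t τ I b 0 (pos S))) c hu)
  congr 1
  refine sum_congr rfl fun σ _ => ?_
  congr 1
  funext η S
  have : ∀ b ∈ J, ((fb μ t τ I η b (-s) (pos S) - fb μ t τ I η b 0 (pos S))
        + 2 * (fb μ t τ I η b 0 (pos S) - fb μ t τ I η b 0 (pos S))
        + (fb μ t τ I η b s (pos S) - fb μ t τ I η b 0 (pos S))) / 4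
      = Db μ t τ I s η b 0 (pos S) / 4 := by
    intro b _
    unfold Db
    have e5 : (0 : ℤ) + s = s := by ring
    have e6 : (0 : ℤ) - s = -s := by ring
    rw [e5, e6]
    ring
  have hs : (∑ b ∈ J, (fb μ t τ I η b (amp s b₀ m σ b) (pos S) - fb μ t τ I η b 0 (pos S)))
      - (∑ b ∈ J, Db μ t τ I s η b 0 (pos S)) / 4
      = ∑ b ∈ J, ((fb μ t τ I η b (amp s b₀ m σ b) (pos S) - fb μ t τ I η b 0 (pos S))
        - ((fb μ t τ I η b (-s) (pos S) - fb μ t τ I η b 0 (pos S))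
        + 2 * (fb μ t τ I η b 0 (pos S) - fb μ t τ I η b 0 (pos S))
        + (fb μ t τ I η b s (pos S) - fb μ t τ I η b 0 (pos S))) / 4) := by
    rw [sum_div, ← sum_sub_distrib]
    refine sum_congr rfl fun b hb => ?_
    rw [this b hb]
  rw [hs]

end

end Pool.Agent.W_7d29a1_Z2
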